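import Pool.Agent.Helper75.Torus.Goals

set_option autoImplicit false

open Set MeasureTheory Matrix

namespace Pool.Agent.Helper90.TorusRL

open Pool.Agent.Helper75.Torus

lemma dot_contDiff (k : E) : ContDiff ℝ 1 (fun Y : E => k ⬝ᵥ Y) := by
  unfold dotProduct
  fun_prop

lemma dot_hasFDeriv (k : E) (Y : E) :
    ∃ L : E →L[ℝ] ℝ, HasFDerivAt (fun Y : E => k ⬝ᵥ Y) L Y ∧ ∀ v, L v = k ⬝ᵥ v := by
  refine ⟨∑ i : Fin 3, (k i) • (ContinuousLinearMap.proj (R := ℝ) (φ := fun _ : Fin 3 => ℝ) i), ?_, ?_⟩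
  · have h : ∀ i ∈ (Finset.univ : Finset (Fin 3)), HasFDerivAt (fun Y : E => k i * Y i)
        ((k i) • (ContinuousLinearMap.proj (R := ℝ) (φ := fun _ : Fin 3 => ℝ) i)) Y := by
      intro i _
      exact (ContinuousLinearMap.proj (R := ℝ) (φ := fun _ : Fin 3 => ℝ) i).hasFDerivAt.const_mul (k i)
    have h2 := HasFDerivAt.fun_sum h
    simpa [dotProduct] using h2
  · intro v
    simp [dotProduct]

lemma norm_le_nn (v : E) : ‖v‖ ≤ nn v := by
  unfold nn
  rw [pi_norm_le_iff_of_nonneg (Real.sqrt_nonneg _)]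
  intro i
  rw [Real.norm_eq_abs]
  apply Real.abs_le_sqrt
  unfold dotProduct
  rw [pow_two]
  exact Finset.single_le_sum (f := fun j => v j * v j) (fun j _ => mul_self_nonneg _) (Finset.mem_univ i)

lemma nn_sq (v : E) : nn v * nn v = v ⬝ᵥ v := by
  unfold nn
  apply Real.mul_self_sqrt
  unfold dotProduct
  exact Finset.sum_nonneg (fun j _ => mul_self_nonneg _)

lemma nn_pos (v : E) (hv : v ≠ 0) : 0 < nn v :=
  lt_of_lt_of_le (norm_pos_iff.mpr hv) (norm_le_nn v)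

theorem thm : G_RL := by
  intro g hg hgs
  refine ⟨∫ Z, ‖fderiv ℝ g Z‖, integral_nonneg (fun _ => norm_nonneg _), ?_⟩
  intro k a δ σ hk hδ
  set F : E → ℝ := fun Y => g (δ • (Y + a)) with hF
  set S : E → ℝ := fun Y => Real.sin (k ⬝ᵥ Y + σ) with hS
  have hA : ContDiff ℝ 1 (fun Y : E => δ • (Y + a)) := by fun_prop
  have hFc : ContDiff ℝ 1 F := hg.comp hA
  have hSc : ContDiff ℝ 1 S := Real.contDiff_sin.comp ((dot_contDiff k).add contDiff_const)
  have hSd : ∀ Y v, fderiv ℝ S Y v = Real.cos (k ⬝ᵥ Y + σ) * (k ⬝ᵥ v) := by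
    intro Y v
    obtain ⟨L, hL, hLv⟩ := dot_hasFDeriv k Y
    have h := (hL.add_const σ).sin
    rw [h.fderiv]
    simp [hLv]
  have hFd : ∀ Y v, fderiv ℝ F Y v = δ * fderiv ℝ g (δ • (Y + a)) v := by
    intro Y v
    have h1 : HasFDerivAt (fun Y : E => δ • (Y + a)) (δ • ContinuousLinearMap.id ℝ E) Y :=
      ((hasFDerivAt_id Y).add_const a).const_smul δ
    have h2 : HasFDerivAt g (fderiv ℝ g (δ • (Y + a))) (δ • (Y + a)) :=
      ((hg.differentiable (by norm_num)) _).hasFDerivAt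
    have h3 := h2.comp Y h1
    have h4 : fderiv ℝ F Y = (fderiv ℝ g (δ • (Y + a))).comp (δ • ContinuousLinearMap.id ℝ E) := h3.fderiv
    rw [h4]
    simp
  -- compact support
  have hFs : HasCompactSupport F := by
    have hh : F = g ∘ ((Homeomorph.addRight a).trans (Homeomorph.smulOfNeZero δ hδ.ne')) := by
      ext Y; simp [hF]
    rw [hh]
    exact hgs.comp_homeomorph _
  have hFcont : Continuous F := hFc.continuous
  have hScont : Continuous S := hSc.continuous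
  have hFfd : Continuous (fun Y => fderiv ℝ F Y k) :=
    (hFc.continuous_fderiv (by norm_num)).clm_apply continuous_const
  have hSfd : Continuous (fun Y => fderiv ℝ S Y k) :=
    (hSc.continuous_fderiv (by norm_num)).clm_apply continuous_const
  have hFfs : HasCompactSupport (fun Y => fderiv ℝ F Y k) := by
    exact hFs.fderiv_apply (𝕜 := ℝ) k
  have hibp : ∫ Y, F Y * fderiv ℝ S Y k = - ∫ Y, fderiv ℝ F Y k * S Y := by
    apply integral_mul_fderiv_eq_neg_fderiv_mul_of_integrable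
    · exact (hFfd.mul hScont).integrable_of_hasCompactSupport hFfs.mul_right
    · exact (hFcont.mul hSfd).integrable_of_hasCompactSupport hFs.mul_right
    · exact (hFcont.mul hScont).integrable_of_hasCompactSupport hFs.mul_right
    · intro x _; exact (hFc.differentiable (by norm_num)) x
    · intro x _; exact (hSc.differentiable (by norm_num)) x
  have e1 : ∫ Y, F Y * fderiv ℝ S Y k = (k ⬝ᵥ k) * ∫ Y, F Y * Real.cos (k ⬝ᵥ Y + σ) := by
    rw [← integral_const_mul]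
    congr 1
    ext Y
    rw [hSd]; ring
  have hnp := nn_pos k hk
  have hsq := nn_sq k
  -- bound
  have hint : Integrable (fun Y : E => ‖fderiv ℝ g (δ • (Y + a))‖) := by
    have hc : Continuous (fun Z => ‖fderiv ℝ g Z‖) := (hg.continuous_fderiv (by norm_num)).norm
    have hs : HasCompactSupport (fun Z => ‖fderiv ℝ g Z‖) := (hgs.fderiv (𝕜 := ℝ)).norm
    have hi : Integrable (fun Z => ‖fderiv ℝ g Z‖) := hc.integrable_of_hasCompactSupport hs
    exact (hi.comp_smul hδ.ne').comp_add_right a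
  have hbound : |∫ Y, fderiv ℝ F Y k * S Y| ≤ δ * nn k * ∫ Y, ‖fderiv ℝ g (δ • (Y + a))‖ := by
    rw [← integral_const_mul]
    rw [← Real.norm_eq_abs]
    apply norm_integral_le_of_norm_le (hint.const_mul _)
    filter_upwards with Y
    rw [hFd, norm_mul, norm_mul, Real.norm_of_nonneg hδ.le]
    have hs1 : ‖S Y‖ ≤ 1 := by rw [Real.norm_eq_abs]; exact Real.abs_sin_le_one _
    have hop : ‖fderiv ℝ g (δ • (Y + a)) k‖ ≤ ‖fderiv ℝ g (δ • (Y + a))‖ * nn k :=
      (ContinuousLinearMap.le_opNorm _ _).trans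
        (mul_le_mul_of_nonneg_left (norm_le_nn k) (norm_nonneg _))
    calc δ * ‖fderiv ℝ g (δ • (Y + a)) k‖ * ‖S Y‖
        ≤ δ * ‖fderiv ℝ g (δ • (Y + a)) k‖ * 1 := by
          apply mul_le_mul_of_nonneg_left hs1 (by positivity)
      _ ≤ δ * (‖fderiv ℝ g (δ • (Y + a))‖ * nn k) := by
          rw [mul_one]; exact mul_le_mul_of_nonneg_left hop hδ.le
      _ = δ * nn k * ‖fderiv ℝ g (δ • (Y + a))‖ := by ring
  have hsub : ∫ Y, ‖fderiv ℝ g (δ • (Y + a))‖ = (δ ^ 3)⁻¹ * ∫ Z, ‖fderiv ℝ g Z‖ := by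
    have h1 : ∫ Y, ‖fderiv ℝ g (δ • (Y + a))‖ = ∫ Y, ‖fderiv ℝ g (δ • Y)‖ :=
      integral_add_right_eq_self (fun Y => ‖fderiv ℝ g (δ • Y)‖) a
    rw [h1, Measure.integral_comp_smul (μ := (volume : Measure E)) (fun Z => ‖fderiv ℝ g Z‖) δ]
    have hfr : Module.finrank ℝ E = 3 := by simp
    rw [hfr, abs_of_nonneg (by positivity), smul_eq_mul]
  -- conclude
  set I : ℝ := ∫ Y, F Y * Real.cos (k ⬝ᵥ Y + σ) with hI
  set C : ℝ := ∫ Z, ‖fderiv ℝ g Z‖ with hC
  have hmain : (k ⬝ᵥ k) * |I| ≤ δ * nn k * ((δ ^ 3)⁻¹ * C) := by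
    rw [← hsub]
    refine le_trans ?_ hbound
    have : (k ⬝ᵥ k) * |I| = |∫ Y, fderiv ℝ F Y k * S Y| := by
      have h5 : (k ⬝ᵥ k) * I = - ∫ Y, fderiv ℝ F Y k * S Y := by rw [← e1, hibp]
      have h6 : |(k ⬝ᵥ k) * I| = |∫ Y, fderiv ℝ F Y k * S Y| := by rw [h5, abs_neg]
      rw [← h6, abs_mul, abs_of_nonneg (a := k ⬝ᵥ k) (by rw [← hsq]; positivity)]
    exact this.le
  have hgoal : |δ ^ 3 * I| ≤ C * δ / nn k := by
    rw [abs_mul, abs_of_pos (by positivity : (0:ℝ) < δ ^ 3), le_div_iff₀ hnp]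
    have h7 : nn k * (δ ^ 3 * |I| * nn k) ≤ nn k * (C * δ) := by
      calc nn k * (δ ^ 3 * |I| * nn k) = δ ^ 3 * ((nn k * nn k) * |I|) := by ring
        _ = δ ^ 3 * ((k ⬝ᵥ k) * |I|) := by rw [hsq]
        _ ≤ δ ^ 3 * (δ * nn k * ((δ ^ 3)⁻¹ * C)) := mul_le_mul_of_nonneg_left hmain (by positivity)
        _ = nn k * (C * δ) := by
          have : δ ^ 3 * (δ ^ 3)⁻¹ = 1 := mul_inv_cancel₀ (by positivity)
          calc δ ^ 3 * (δ * nn k * ((δ ^ 3)⁻¹ * C)) = (δ ^ 3 * (δ ^ 3)⁻¹) * (nn k * (C * δ)) := by ring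
            _ = nn k * (C * δ) := by rw [this, one_mul]
    exact le_of_mul_le_mul_left h7 hnp
  exact hgoal

end Pool.Agent.Helper90.TorusRL
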